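import Mathlib
import Pool.Agent.W611.RO.Stms

/-!
Project RO (helper611), part ERG: zero-one law for scalar strong limits of covariant fields.
-/

set_option autoImplicit false
open scoped ComplexConjugate InnerProductSpace Topology BoundedContinuousFunction
open Filter MeasureTheory NormedSpace

namespace Pool.Agent.W545.RO
open Pool.Agent.H712R5.BO Pool.Agent.W611.RO

section
variable {G Ω H : Type} [Group G] [Countable G] [MeasurableSpace Ω] [MulAction G Ω]
  [NormedAddCommGroup H] [InnerProductSpace ℂ H] [CompleteSpace H]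

omit [Group G] [MulAction G Ω] in
/-- the norm of a weakly measurable vector field is measurable -/
theorem meas_norm (b : HilbertBasis G ℂ H) (v : Ω → H)
    (hv : ∀ k : G, Measurable (fun ω => ⟪b k, v ω⟫_ℂ)) : Measurable (fun ω => ‖v ω‖) := by
  have h1 : ∀ ω, ‖v ω‖ = Real.sqrt ((∑' k : G, conj ⟪b k, v ω⟫_ℂ * ⟪b k, v ω⟫_ℂ).re) := by
    intro ω
    have h2 : ∑' k : G, conj ⟪b k, v ω⟫_ℂ * ⟪b k, v ω⟫_ℂ = ⟪v ω, v ω⟫_ℂ := by
      rw [← b.tsum_inner_mul_inner]
      refine tsum_congr fun k => ?_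
      rw [inner_conj_symm]
    rw [h2]
    exact norm_eq_sqrt_re_inner (𝕜 := ℂ) (v ω)
  simp_rw [h1]
  refine Real.continuous_sqrt.measurable.comp (Complex.continuous_re.measurable.comp ?_)
  exact Measurable.tsum fun k => ((Complex.continuous_conj.measurable).comp (hv k)).mul (hv k)

omit [Group G] [Countable G] in
/-- convergence of a bounded sequence of operators to a scalar, tested on the basis -/
theorem conv_all (b : HilbertBasis G ℂ H) (T : ℕ → (H →L[ℂ] H)) (R : ℝ) (hR : ∀ i, ‖T i‖ ≤ R)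
    (c : ℂ) (hc : ∀ k : G, Tendsto (fun i => T i (b k)) atTop (𝓝 (c • b k))) (x : H) :
    Tendsto (fun i => T i x) atTop (𝓝 (c • x)) := by
  -- the set of good vectors is a closed subspace
  let V : Submodule ℂ H :=
    { carrier := {y | Tendsto (fun i => T i y) atTop (𝓝 (c • y))}
      add_mem' := by
        intro y z hy hz
        have h := Tendsto.add hy hz
        simp only [Set.mem_setOf_eq, map_add, smul_add]
        exact h
      zero_mem' := by simp
      smul_mem' := by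
        intro d y hy
        have h := Tendsto.const_smul hy d
        simp only [Set.mem_setOf_eq, map_smul]
        rw [smul_comm c d y]
        exact h }
  have hR0 : 0 ≤ R := le_trans (norm_nonneg _) (hR 0)
  have hcl : IsClosed (V : Set H) := by
    rw [← isSeqClosed_iff_isClosed]
    intro s y hs hlim
    show Tendsto (fun i => T i y) atTop (𝓝 (c • y))
    rw [Metric.tendsto_atTop]
    intro ε hε
    have hK : 0 < R + ‖c‖ + 1 := by positivity
    obtain ⟨n, hn⟩ := (Metric.tendsto_atTop.1 hlim) (ε / 2 / (R + ‖c‖ + 1)) (by positivity)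
    have hn' := hn n le_rfl
    obtain ⟨N, hN⟩ := (Metric.tendsto_atTop.1 (hs n : Tendsto (fun i => T i (s n)) atTop (𝓝 (c • s n))))
      (ε / 2) (by positivity)
    refine ⟨N, fun i hi => ?_⟩
    have h1 := hN i hi
    rw [dist_eq_norm] at h1 hn' ⊢
    have e1 : T i y - c • y = (T i (s n) - c • s n) - T i (s n - y) + c • (s n - y) := by
      rw [map_sub, smul_sub]; abel
    have h2 : ‖T i (s n - y)‖ ≤ R * ‖s n - y‖ :=
      le_trans ((T i).le_opNorm _) (mul_le_mul_of_nonneg_right (hR i) (norm_nonneg _))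
    have h3 : ‖c • (s n - y)‖ = ‖c‖ * ‖s n - y‖ := norm_smul _ _
    have h4 : (R + ‖c‖ + 1) * ‖s n - y‖ < ε / 2 := by
      have := (lt_div_iff₀ hK).1 hn'
      linarith [mul_comm (R + ‖c‖ + 1) ‖s n - y‖]
    calc ‖T i y - c • y‖ = ‖(T i (s n) - c • s n) - T i (s n - y) + c • (s n - y)‖ := by rw [e1]
      _ ≤ ‖(T i (s n) - c • s n) - T i (s n - y)‖ + ‖c • (s n - y)‖ := norm_add_le _ _
      _ ≤ ‖T i (s n) - c • s n‖ + ‖T i (s n - y)‖ + ‖c • (s n - y)‖ := by
          gcongr
          exact norm_sub_le _ _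
      _ < ε := by nlinarith [norm_nonneg (s n - y)]
  have hspan : (Submodule.span ℂ (Set.range b)) ≤ V := by
    rw [Submodule.span_le]
    rintro _ ⟨k, rfl⟩
    exact hc k
  have htop : (⊤ : Submodule ℂ H) ≤ V := by
    rw [← b.dense_span]
    exact Submodule.topologicalClosure_minimal _ hspan hcl
  exact htop (Submodule.mem_top : x ∈ ⊤)

/-- the set where the sequence converges strongly to a scalar -/
def SS (b : HilbertBasis G ℂ H) (L : G → unitary (H →L[ℂ] H)) (B : ℕ → CF (Ω := Ω) b L) : Set Ω :=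
  {ω | ∃ c : ℂ, ∀ x : H, Tendsto (fun i => ev b L ω (B i) x) atTop (𝓝 (c • x))}

/-- the diagonal coefficient -/
noncomputable def q (b : HilbertBasis G ℂ H) (L : G → unitary (H →L[ℂ] H))
    (B : ℕ → CF (Ω := Ω) b L) (i : ℕ) (ω : Ω) : ℂ := ⟪b 1, ev b L ω (B i) (b 1)⟫_ℂ

theorem q_lim (b : HilbertBasis G ℂ H) (L : G → unitary (H →L[ℂ] H))
    (B : ℕ → CF (Ω := Ω) b L) (ω : Ω) (c : ℂ)
    (h : Tendsto (fun i => ev b L ω (B i) (b 1)) atTop (𝓝 (c • b 1))) :
    Tendsto (fun i => q b L B i ω) atTop (𝓝 c) := by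
  have h1 : Tendsto (fun i => ⟪b 1, ev b L ω (B i) (b 1)⟫_ℂ) atTop (𝓝 ⟪b 1, c • b 1⟫_ℂ) :=
    Tendsto.inner tendsto_const_nhds h
  have h2 : ⟪b 1, c • b 1⟫_ℂ = c := by
    rw [inner_smul_right, inner_self_eq_norm_sq_to_K, b.orthonormal.1 1]
    simp
  rw [h2] at h1
  exact h1

theorem SS_eq (b : HilbertBasis G ℂ H) (L : G → unitary (H →L[ℂ] H))
    (B : ℕ → CF (Ω := Ω) b L) (R : ℝ) (hR : ∀ i, ‖B i‖ ≤ R) :
    SS b L B = {ω | ∃ c, Tendsto (fun i => q b L B i ω) atTop (𝓝 c)} ∩
      ⋂ k : G, {ω | Tendsto (fun i => ‖ev b L ω (B i) (b k) - q b L B i ω • b k‖) atTop (𝓝 0)} := by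
  ext ω
  constructor
  · rintro ⟨c, hc⟩
    have hq := q_lim b L B ω c (hc (b 1))
    refine ⟨⟨c, hq⟩, ?_⟩
    rw [Set.mem_iInter]
    intro k
    show Tendsto (fun i => ‖ev b L ω (B i) (b k) - q b L B i ω • b k‖) atTop (𝓝 0)
    have h1 := ((hc (b k)).sub (hq.smul_const (b k))).norm
    simpa using h1
  · rintro ⟨⟨c, hc⟩, h2⟩
    refine ⟨c, conv_all b _ R (fun i => le_trans (ev_norm b L ω (B i)) (hR i)) c fun k => ?_⟩
    rw [Set.mem_iInter] at h2
    have h3 : Tendsto (fun i => ‖ev b L ω (B i) (b k) - q b L B i ω • b k‖) atTop (𝓝 0) := h2 k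
    have h4 := tendsto_zero_iff_norm_tendsto_zero.2 h3
    have h5 := h4.add (hc.smul_const (b k))
    simpa using h5

theorem q_meas (b : HilbertBasis G ℂ H) (L : G → unitary (H →L[ℂ] H))
    (B : ℕ → CF (Ω := Ω) b L) (i : ℕ) : Measurable (q b L B i) := ev_meas b L (B i) _ _

theorem SS_meas (b : HilbertBasis G ℂ H) (L : G → unitary (H →L[ℂ] H))
    (B : ℕ → CF (Ω := Ω) b L) (R : ℝ) (hR : ∀ i, ‖B i‖ ≤ R) : MeasurableSet (SS b L B) := by
  rw [SS_eq b L B R hR]
  refine MeasurableSet.inter ?_ (MeasurableSet.iInter fun k => ?_)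
  · exact measurableSet_exists_tendsto fun i => q_meas b L B i
  · refine measurableSet_tendsto (𝓝 0) fun i => ?_
    refine meas_norm b _ fun j => ?_
    have h1 : ∀ ω, ⟪b j, ev b L ω (B i) (b k) - q b L B i ω • b k⟫_ℂ
        = ⟪b j, ev b L ω (B i) (b k)⟫_ℂ - q b L B i ω * ⟪b j, b k⟫_ℂ := by
      intro ω
      rw [inner_sub_right, inner_smul_right]
    simp_rw [h1]
    exact (ev_meas b L (B i) _ _).sub ((q_meas b L B i).mul_const _)

theorem conv_smul (b : HilbertBasis G ℂ H) (L : G → unitary (H →L[ℂ] H))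
    (B : ℕ → CF (Ω := Ω) b L) (ω : Ω) (c : ℂ) (g : G)
    (h : ∀ x : H, Tendsto (fun i => ev b L ω (B i) x) atTop (𝓝 (c • x))) (x : H) :
    Tendsto (fun i => ev b L (g • ω) (B i) x) atTop (𝓝 (c • x)) := by
  have e1 : (L g : H →L[ℂ] H) * star (L g : H →L[ℂ] H) = 1 := (Unitary.mem_iff.mp (L g).2).2
  have e2 : ∀ i, ev b L (g • ω) (B i) x
      = (L g : H →L[ℂ] H) (ev b L ω (B i) (star (L g : H →L[ℂ] H) x)) := by
    intro i
    have h1 : ev b L (g • ω) (B i) = (L g : H →L[ℂ] H) * ev b L ω (B i) * star (L g : H →L[ℂ] H) := by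
      rw [← ev_cov, mul_assoc, e1, mul_one]
    rw [h1]
    rfl
  have e3 : c • x = (L g : H →L[ℂ] H) (c • (star (L g : H →L[ℂ] H) x)) := by
    rw [map_smul]
    congr 1
    have := congrArg (fun T : H →L[ℂ] H => T x) e1
    exact this.symm
  simp_rw [e2]
  rw [e3]
  exact ((L g : H →L[ℂ] H).continuous.tendsto _).comp (h _)

theorem SS_inv (b : HilbertBasis G ℂ H) (L : G → unitary (H →L[ℂ] H))
    (B : ℕ → CF (Ω := Ω) b L) (g : G) (ω : Ω) : g • ω ∈ SS b L B ↔ ω ∈ SS b L B := by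
  constructor
  · rintro ⟨c, hc⟩
    refine ⟨c, fun x => ?_⟩
    have := conv_smul b L B (g • ω) c g⁻¹ hc x
    rwa [inv_smul_smul] at this
  · rintro ⟨c, hc⟩
    exact ⟨c, fun x => conv_smul b L B ω c g hc x⟩

open Classical in
/-- the limit on `SS`, zero outside -/
noncomputable def cc (b : HilbertBasis G ℂ H) (L : G → unitary (H →L[ℂ] H))
    (B : ℕ → CF (Ω := Ω) b L) (ω : Ω) : ℂ := if h : ω ∈ SS b L B then h.choose else 0

theorem cc_spec (b : HilbertBasis G ℂ H) (L : G → unitary (H →L[ℂ] H))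
    (B : ℕ → CF (Ω := Ω) b L) (ω : Ω) (h : ω ∈ SS b L B) (x : H) :
    Tendsto (fun i => ev b L ω (B i) x) atTop (𝓝 (cc b L B ω • x)) := by
  have h1 : cc b L B ω = h.choose := by
    unfold cc
    rw [dif_pos h]
  rw [h1]
  exact h.choose_spec x

theorem cc_uniq (b : HilbertBasis G ℂ H) (L : G → unitary (H →L[ℂ] H))
    (B : ℕ → CF (Ω := Ω) b L) (ω : Ω) (c : ℂ)
    (h : ∀ x : H, Tendsto (fun i => ev b L ω (B i) x) atTop (𝓝 (c • x))) : cc b L B ω = c :=
  tendsto_nhds_unique (q_lim b L B ω _ (cc_spec b L B ω ⟨c, h⟩ (b 1))) (q_lim b L B ω c (h (b 1)))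

theorem cc_inv (b : HilbertBasis G ℂ H) (L : G → unitary (H →L[ℂ] H))
    (B : ℕ → CF (Ω := Ω) b L) (g : G) (ω : Ω) : cc b L B (g • ω) = cc b L B ω := by
  by_cases h : ω ∈ SS b L B
  · exact cc_uniq b L B (g • ω) _ fun x => conv_smul b L B ω _ g (fun y => cc_spec b L B ω h y) x
  · have h' : g • ω ∉ SS b L B := fun h2 => h ((SS_inv b L B g ω).1 h2)
    unfold cc
    rw [dif_neg h, dif_neg h']

theorem cc_meas (b : HilbertBasis G ℂ H) (L : G → unitary (H →L[ℂ] H))
    (B : ℕ → CF (Ω := Ω) b L) (R : ℝ) (hR : ∀ i, ‖B i‖ ≤ R) : Measurable (cc b L B) := by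
  refine measurable_of_tendsto_metrizable
    (f := fun i => (SS b L B).indicator (q b L B i))
    (fun i => (q_meas b L B i).indicator (SS_meas b L B R hR)) ?_
  rw [tendsto_pi_nhds]
  intro ω
  by_cases h : ω ∈ SS b L B
  · simp only [Set.indicator_of_mem h]
    exact q_lim b L B ω _ (cc_spec b L B ω h (b 1))
  · simp only [Set.indicator_of_notMem h]
    have h1 : cc b L B ω = 0 := by
      unfold cc
      rw [dif_neg h]
    rw [h1]
    exact tendsto_const_nhds

end

theorem t_ERG : Pool.Agent.W611.RO.P_ERG := by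
  intro G Ω H _ _ _ _ _ _ _ P _ b L _ hE B R hR
  have hS := hE.erg (SS b L B) (SS_meas b L B R hR) (fun g => by
    ext ω
    exact SS_inv b L B g ω)
  rcases hS with h0 | h1
  · left
    rw [ae_iff]
    simp only [not_not]
    exact h0
  · right
    have hae : ∀ᵐ ω ∂P, ω ∈ SS b L B := by
      rw [ae_iff]
      exact h1
    obtain ⟨c, hc⟩ := exists_eventuallyEq_const_of_forall_separating (l := ae P)
      (f := cc b L B) MeasurableSet (fun U hU => by
        have h2 := hE.erg (cc b L B ⁻¹' U) (cc_meas b L B R hR hU) (fun g => by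
          ext ω
          simp only [Set.mem_preimage, cc_inv])
        rcases h2 with h2 | h2
        · right
          rw [ae_iff]
          simp only [not_not]
          exact h2
        · left
          rw [ae_iff]
          exact h2)
    refine ⟨c, ?_⟩
    filter_upwards [hae, hc] with ω hω hcω x
    have := cc_spec b L B ω hω x
    rw [hcω] at this
    exact this

end Pool.Agent.W545.RO
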